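import Pool.Agent.N516.SC.Stm

set_option autoImplicit false

namespace Pool.Agent.N562.SC

open Pool.Agent.N516.SC

namespace IND

lemma nbrs {V : Type} {G : SimpleGraph V} (h : IsCubic G) (v : V) :
    ∃ a b c, a ≠ b ∧ a ≠ c ∧ b ≠ c ∧ ∀ w, G.Adj v w ↔ w = a ∨ w = b ∨ w = c := by
  obtain ⟨a, b, c, hab, hac, hbc, hs⟩ := Set.ncard_eq_three.1 (h v)
  refine ⟨a, b, c, hab, hac, hbc, fun w => ?_⟩
  have : w ∈ G.neighborSet v ↔ w ∈ ({a, b, c} : Set V) := by rw [hs]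
  simpa using this

/-- the label of a set of matchings -/
def lab (P : Finset (Fin 4)) : Finset (Fin 4) := if P.card = 1 then P else Pᶜ

def fib (f : Fin 4 → Fin 3) (j : Fin 3) : Finset (Fin 4) := Finset.univ.filter fun i => f i = j

lemma tri_fun : ∀ f : Fin 4 → Fin 3, (fib f 0).Nonempty → (fib f 1).Nonempty → (fib f 2).Nonempty →
    (symmDiff (lab (fib f 0)) (lab (fib f 1)) = lab (fib f 2) ∧ (lab (fib f 0)).Nonempty ∧
      (lab (fib f 1)).Nonempty ∧ (lab (fib f 2)).Nonempty ∧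
      (lab (fib f 0)).card + (lab (fib f 1)).card + (lab (fib f 2)).card = 4) := by
  decide +kernel

lemma tri {P Q R : Finset (Fin 4)} (hP : P.Nonempty) (hQ : Q.Nonempty) (hR : R.Nonempty)
    (hPQ : ∀ i ∈ P, i ∉ Q) (hPR : ∀ i ∈ P, i ∉ R) (hQR : ∀ i ∈ Q, i ∉ R)
    (hu : ∀ i, i ∈ P ∨ i ∈ Q ∨ i ∈ R) : Tri (lab P) (lab Q) (lab R) := by
  classical
  let f : Fin 4 → Fin 3 := fun i => if i ∈ P then 0 else if i ∈ Q then 1 else 2
  have h0 : fib f 0 = P := by
    ext i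
    simp only [fib, f, Finset.mem_filter, Finset.mem_univ, true_and]
    by_cases h1 : i ∈ P
    · simp [h1]
    · by_cases h2 : i ∈ Q <;> simp [h1, h2]
  have h1 : fib f 1 = Q := by
    ext i
    simp only [fib, f, Finset.mem_filter, Finset.mem_univ, true_and]
    by_cases h1 : i ∈ P
    · simp [h1, hPQ i h1]
    · by_cases h2 : i ∈ Q <;> simp [h1, h2]
  have h2 : fib f 2 = R := by
    ext i
    simp only [fib, f, Finset.mem_filter, Finset.mem_univ, true_and]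
    by_cases h1 : i ∈ P
    · simp [h1, hPR i h1]
    · by_cases h2 : i ∈ Q
      · simp [h1, h2, hQR i h2]
      · have := hu i
        simp [h1, h2] at this ⊢
        exact this
  have := tri_fun f (by rw [h0]; exact hP) (by rw [h1]; exact hQ) (by rw [h2]; exact hR)
  rw [h0, h1, h2] at this
  exact this

open Classical in
/-- the set of matchings containing `e` -/
noncomputable def St {V : Type} (N : Fin 4 → Set (Sym2 V)) (e : Sym2 V) : Finset (Fin 4) :=
  Finset.univ.filter fun i => e ∈ N i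

lemma mem_St {V : Type} (N : Fin 4 → Set (Sym2 V)) (e : Sym2 V) (i : Fin 4) :
    i ∈ St N e ↔ e ∈ N i := by
  classical
  simp [St]

lemma s_inj {V : Type} {v a b : V} (h : a ≠ b) : s(v, a) ≠ s(v, b) := by
  intro h'
  rw [Sym2.eq_iff] at h'
  rcases h' with ⟨_, h'⟩ | ⟨h1, h2⟩
  · exact h h'
  · exact h (h2.trans h1)

lemma four {V : Type} [Nonempty V] (G : SimpleGraph V) (hc : IsCubic G) (hn : NT G)
    (N : Fin 4 → Set (Sym2 V)) (hN : ∀ i, IsPM G (N i)) (hcov : ∀ e ∈ G.edgeSet, ∃ i, e ∈ N i) :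
    False := by
  classical
  obtain ⟨v, hv⟩ := hn (Fin 4) (fun v w => lab (St N s(v, w))) (fun v w => by rw [Sym2.eq_swap])
  apply hv
  intro a b c hab hac hbc ha hb hc'
  have key : ∀ x y, x ≠ y → ∀ i ∈ St N s(v, x), i ∉ St N s(v, y) := by
    intro x y hxy i hi hi'
    rw [mem_St] at hi hi'
    obtain ⟨e, _, he⟩ := (hN i).2 v
    have e1 := he _ ⟨hi, Sym2.mem_mk_left v x⟩
    have e2 := he _ ⟨hi', Sym2.mem_mk_left v y⟩
    exact s_inj hxy (e1.trans e2.symm)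
  have ne : ∀ x, G.Adj v x → (St N s(v, x)).Nonempty := by
    intro x hx
    obtain ⟨i, hi⟩ := hcov s(v, x) hx
    exact ⟨i, (mem_St N _ i).2 hi⟩
  refine tri (ne a ha) (ne b hb) (ne c hc') (key a b hab) (key a c hac) (key b c hbc) ?_
  intro i
  obtain ⟨e, ⟨heN, hev⟩, _⟩ := (hN i).2 v
  obtain ⟨w, rfl⟩ := hev
  have hvw : G.Adj v w := (hN i).1 heN
  obtain ⟨a', b', c', h1, h2, h3, hw⟩ := nbrs hc v
  have hwm := (hw w).1 hvw
  have ham := (hw a).1 ha
  have hbm := (hw b).1 hb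
  have hcm := (hw c).1 hc'
  have : w = a ∨ w = b ∨ w = c := by
    clear * - ham hbm hcm hwm hab hac hbc
    rcases ham with rfl | rfl | rfl <;> rcases hbm with rfl | rfl | rfl <;>
      rcases hcm with rfl | rfl | rfl <;> first | contradiction | tauto
  rcases this with rfl | rfl | rfl
  · exact Or.inl ((mem_St N _ i).2 heN)
  · exact Or.inr (Or.inl ((mem_St N _ i).2 heN))
  · exact Or.inr (Or.inr ((mem_St N _ i).2 heN))

lemma index {V : Type} [Nonempty V] (G : SimpleGraph V) (hc : IsCubic G) (hn : NT G) :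
    IndexAtLeastFive G := by
  intro k hk ⟨M, hM, hcov⟩
  rcases Nat.eq_zero_or_pos k with rfl | hpos
  · obtain ⟨a, b, c, _, _, _, hw⟩ := nbrs hc (Classical.arbitrary V)
    obtain ⟨i, _⟩ := hcov s(Classical.arbitrary V, a) ((hw a).2 (Or.inl rfl))
    exact i.elim0
  · let g : Fin 4 → Fin k := fun i => ⟨min i.val (k - 1), by omega⟩
    refine four G hc hn (fun i => M (g i)) (fun i => hM _) ?_
    intro e he
    obtain ⟨i, hi⟩ := hcov e he
    refine ⟨⟨i.val, by omega⟩, ?_⟩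
    have : g ⟨i.val, by omega⟩ = i := by
      apply Fin.ext
      simp only [g]
      omega
    rw [this]
    exact hi

lemma col {V : Type} [Nonempty V] (G : SimpleGraph V) (hc : IsCubic G) (hn : NT G) :
    ¬ EdgeColourable3 G := by
  rintro ⟨c, hcol⟩
  apply index G hc hn 3 (by norm_num)
  refine ⟨fun i => {e | e ∈ G.edgeSet ∧ c e = i}, ?_, ?_⟩
  · intro i
    refine ⟨fun e he => he.1, ?_⟩
    intro v
    obtain ⟨x, y, z, hxy, hxz, hyz, hw⟩ := nbrs hc v
    have hx : s(v, x) ∈ G.edgeSet := (hw x).2 (Or.inl rfl)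
    have hy : s(v, y) ∈ G.edgeSet := (hw y).2 (Or.inr (Or.inl rfl))
    have hz : s(v, z) ∈ G.edgeSet := (hw z).2 (Or.inr (Or.inr rfl))
    have cxy := hcol _ hx _ hy (s_inj hxy) ⟨v, Sym2.mem_mk_left _ _, Sym2.mem_mk_left _ _⟩
    have cxz := hcol _ hx _ hz (s_inj hxz) ⟨v, Sym2.mem_mk_left _ _, Sym2.mem_mk_left _ _⟩
    have cyz := hcol _ hy _ hz (s_inj hyz) ⟨v, Sym2.mem_mk_left _ _, Sym2.mem_mk_left _ _⟩
    have ex : c s(v, x) = i ∨ c s(v, y) = i ∨ c s(v, z) = i := by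
      generalize c s(v, x) = p at *
      generalize c s(v, y) = q at *
      generalize c s(v, z) = r at *
      revert p q r i
      decide
    have huniq : ∀ e e' : Sym2 V, (e ∈ G.edgeSet ∧ c e = i) → v ∈ e → (e' ∈ G.edgeSet ∧ c e' = i) →
        v ∈ e' → e = e' := by
      intro e e' h1 h2 h3 h4
      by_contra hne
      exact hcol e h1.1 e' h3.1 hne ⟨v, h2, h4⟩ (h1.2.trans h3.2.symm)
    rcases ex with h | h | h
    · exact ⟨s(v, x), ⟨⟨hx, h⟩, Sym2.mem_mk_left _ _⟩,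
        fun e he => huniq e _ he.1 he.2 ⟨hx, h⟩ (Sym2.mem_mk_left _ _)⟩
    · exact ⟨s(v, y), ⟨⟨hy, h⟩, Sym2.mem_mk_left _ _⟩,
        fun e he => huniq e _ he.1 he.2 ⟨hy, h⟩ (Sym2.mem_mk_left _ _)⟩
    · exact ⟨s(v, z), ⟨⟨hz, h⟩, Sym2.mem_mk_left _ _⟩,
        fun e he => huniq e _ he.1 he.2 ⟨hz, h⟩ (Sym2.mem_mk_left _ _)⟩
  · intro e he
    exact ⟨c e, he, rfl⟩

end IND

theorem t_IND : S_IND := fun V _ _ G hc hn => ⟨IND.index G hc hn, IND.col G hc hn⟩

end Pool.Agent.N562.SC
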